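import Pool.Agent.Q230.RS.St

/-!
# Project RS (helper230): RS-ANG
-/

set_option autoImplicit false

namespace Pool.Agent.Q47.RS

open Pool.Agent.Q230.RS

theorem crc_mul (z u w : ℂ) : crc (z * u) (z * w) = Complex.normSq z * crc u w := by
  unfold crc
  rw [Complex.normSq_apply, Complex.mul_re, Complex.mul_im, Complex.mul_re, Complex.mul_im]
  ring

theorem ccw_polar (z w : ℂ) : 0 ≤ ccw z w ∧ ccw z w < 2 * Real.pi ∧
    (w / z).re = ‖w / z‖ * Real.cos (ccw z w) ∧ (w / z).im = ‖w / z‖ * Real.sin (ccw z w) := by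
  have h1 := toIcoMod_mem_Ico Real.two_pi_pos 0 (Complex.arg (w / z))
  rw [zero_add] at h1
  have h2 : ccw z w = Complex.arg (w / z) - (toIcoDiv Real.two_pi_pos 0 (Complex.arg (w / z)) : ℤ) * (2 * Real.pi) := by
    unfold ccw toIcoMod
    rw [zsmul_eq_mul]
  refine ⟨h1.1, h1.2, ?_, ?_⟩
  · rw [h2, Real.cos_sub_int_mul_two_pi, Complex.norm_mul_cos_arg]
  · rw [h2, Real.sin_sub_int_mul_two_pi, Complex.norm_mul_sin_arg]

theorem ang : S_ANG := by
  intro A B C hA hB hC
  obtain ⟨β0, β1, β2, β3⟩ := ccw_polar A B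
  obtain ⟨γ0, γ1, γ2, γ3⟩ := ccw_polar A C
  obtain ⟨β, hβ⟩ : ∃ β, β = ccw A B := ⟨_, rfl⟩
  obtain ⟨γ, hγ⟩ : ∃ γ, γ = ccw A C := ⟨_, rfl⟩
  obtain ⟨r, hr⟩ : ∃ r, r = ‖B / A‖ := ⟨_, rfl⟩
  obtain ⟨s, hs⟩ : ∃ s, s = ‖C / A‖ := ⟨_, rfl⟩
  obtain ⟨K, hK⟩ : ∃ K, K = Complex.normSq A := ⟨_, rfl⟩
  have hr0 : 0 < r := by rw [hr]; exact norm_pos_iff.2 (div_ne_zero hB hA)
  have hs0 : 0 < s := by rw [hs]; exact norm_pos_iff.2 (div_ne_zero hC hA)
  have hK0 : 0 < K := by rw [hK]; exact Complex.normSq_pos.2 hA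
  have eB : B = A * (B / A) := by field_simp
  have eC : C = A * (C / A) := by field_simp
  have ha : crc A B = K * r * Real.sin β := by
    have h1 : crc A B = crc (A * 1) (A * (B / A)) := by rw [mul_one, ← eB]
    rw [h1, crc_mul, ← hK]
    unfold crc
    rw [β3, ← hβ, ← hr, Complex.one_re, Complex.one_im]
    ring
  have hc : crc C A = -(K * s * Real.sin γ) := by
    have h1 : crc C A = crc (A * (C / A)) (A * 1) := by rw [mul_one, ← eC]
    rw [h1, crc_mul, ← hK]
    unfold crc
    rw [γ3, ← hγ, ← hs, Complex.one_re, Complex.one_im]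
    ring
  have hb : crc B C = K * r * s * Real.sin (γ - β) := by
    have h1 : crc B C = crc (A * (B / A)) (A * (C / A)) := by rw [← eB, ← eC]
    rw [h1, crc_mul, ← hK]
    unfold crc
    rw [β2, β3, γ2, γ3, ← hβ, ← hγ, ← hr, ← hs, Real.sin_sub]
    ring
  rw [← hβ, ← hγ]
  rw [← hβ] at β0 β1
  rw [← hγ] at γ0 γ1
  rw [ha, hb, hc]
  have hKr : 0 < K * r := by positivity
  have hKs : 0 < K * s := by positivity
  have hKrs : 0 < K * r * s := by positivity
  have pa : 0 < K * r * Real.sin β ↔ 0 < Real.sin β := by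
    constructor
    · intro h
      exact (pos_iff_pos_of_mul_pos h).1 hKr
    · intro h
      positivity
  have pb : 0 < K * r * s * Real.sin (γ - β) ↔ 0 < Real.sin (γ - β) := by
    constructor
    · intro h
      exact (pos_iff_pos_of_mul_pos h).1 hKrs
    · intro h
      positivity
  have pc : 0 < -(K * s * Real.sin γ) ↔ Real.sin γ < 0 := by
    constructor
    · intro h
      by_contra h2
      push Not at h2
      have := mul_nonneg hKs.le h2
      linarith
    · intro h
      have := mul_pos_of_neg_of_neg h (neg_lt_zero.2 hKs)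
      nlinarith
  -- signs of the sine
  have sinneg : ∀ x : ℝ, -Real.pi < x → x ≤ 0 → Real.sin x ≤ 0 := by
    intro x h1 h2
    exact Real.sin_nonpos_of_nonpos_of_neg_pi_le h2 h1.le
  have sinpos : ∀ x : ℝ, 0 ≤ x → x < 2 * Real.pi → 0 < Real.sin x → 0 < x ∧ x < Real.pi := by
    intro x h1 h2 h3
    constructor
    · rcases h1.eq_or_lt with h4 | h4
      · rw [← h4, Real.sin_zero] at h3
        exact absurd h3 (lt_irrefl _)
      · exact h4
    · by_contra h4
      push Not at h4
      have h5 : Real.sin (x - Real.pi) = -Real.sin x := Real.sin_sub_pi x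
      have h6 : 0 ≤ Real.sin (x - Real.pi) := Real.sin_nonneg_of_nonneg_of_le_pi (by linarith) (by linarith)
      linarith
  have sinneg2 : ∀ x : ℝ, 0 ≤ x → x < 2 * Real.pi → Real.sin x < 0 → Real.pi < x := by
    intro x h1 h2 h3
    by_contra h4
    push Not at h4
    have := Real.sin_nonneg_of_nonneg_of_le_pi h1 h4
    linarith
  have hpi := Real.pi_pos
  constructor
  · intro hM
    unfold Maj at hM
    rw [pa, pb, pc] at hM
    rcases hM with ⟨h1, h2⟩ | ⟨h2, h3⟩ | ⟨h3, h1⟩
    · obtain ⟨h4, h5⟩ := sinpos β β0 β1 h1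
      refine ⟨h4, ?_⟩
      by_contra h6
      push Not at h6
      have := sinneg (γ - β) (by linarith) (by linarith)
      linarith
    · have h4 := sinneg2 γ γ0 γ1 h3
      constructor
      · rcases β0.eq_or_lt with h5 | h5
        · rw [← h5, sub_zero] at h2
          linarith
        · exact h5
      · by_contra h6
        push Not at h6
        have := sinneg (γ - β) (by linarith) (by linarith)
        linarith
    · obtain ⟨h4, h5⟩ := sinpos β β0 β1 h1
      have h6 := sinneg2 γ γ0 γ1 h3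
      exact ⟨h4, by linarith⟩
  · intro h1 h2 h3 hlt
    unfold Maj
    rw [pa, pb, pc]
    have n1 : Real.sin β ≠ 0 := fun h => h1 (by rw [h, mul_zero])
    have n2 : Real.sin (γ - β) ≠ 0 := fun h => h2 (by rw [h, mul_zero])
    have n3 : Real.sin γ ≠ 0 := fun h => h3 (by rw [h, mul_zero, neg_zero])
    have hγπ : ∀ x : ℝ, Real.pi ≤ x → x < 2 * Real.pi → Real.sin x ≤ 0 := by
      intro x h4 h5
      have h6 : Real.sin (x - Real.pi) = -Real.sin x := Real.sin_sub_pi x
      have h7 : 0 ≤ Real.sin (x - Real.pi) := Real.sin_nonneg_of_nonneg_of_le_pi (by linarith) (by linarith)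
      linarith
    rcases le_or_gt Real.pi β with h4 | h4
    · right
      left
      constructor
      · have := Real.sin_nonneg_of_nonneg_of_le_pi (show 0 ≤ γ - β by linarith) (by linarith)
        exact lt_of_le_of_ne this (Ne.symm n2)
      · exact lt_of_le_of_ne (hγπ γ (by linarith) γ1) n3
    · have h5 : 0 < Real.sin β :=
        lt_of_le_of_ne (Real.sin_nonneg_of_nonneg_of_le_pi β0 h4.le) (Ne.symm n1)
      rcases le_or_gt Real.pi γ with h6 | h6
      · right
        right
        exact ⟨lt_of_le_of_ne (hγπ γ h6 γ1) n3, h5⟩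
      · left
        refine ⟨h5, ?_⟩
        have := Real.sin_nonneg_of_nonneg_of_le_pi (show 0 ≤ γ - β by linarith) (by linarith)
        exact lt_of_le_of_ne this (Ne.symm n2)

end Pool.Agent.Q47.RS
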