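import Pool.Agent.Q230.RS.St2
import Pool.Agent.Q47.RS.Ang

/-!
# Project RS (helper230): RS-DRW
-/

set_option autoImplicit false

namespace Pool.Agent.Q47.RS

open Pool.Agent.Q230.RS

theorem polar3 {A B C : ℂ} (hA : A ≠ 0) (hB : B ≠ 0) (hC : C ≠ 0) :
    ∃ P Q R : ℝ, 0 < P ∧ 0 < Q ∧ 0 < R ∧ crc A B = P * Real.sin (ccw A B) ∧
      crc B C = Q * Real.sin (ccw A C - ccw A B) ∧ crc C A = -(R * Real.sin (ccw A C)) := by
  obtain ⟨β0, β1, β2, β3⟩ := ccw_polar A B
  obtain ⟨γ0, γ1, γ2, γ3⟩ := ccw_polar A C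
  obtain ⟨β, hβ⟩ : ∃ β, β = ccw A B := ⟨_, rfl⟩
  obtain ⟨γ, hγ⟩ : ∃ γ, γ = ccw A C := ⟨_, rfl⟩
  obtain ⟨r, hr⟩ : ∃ r, r = ‖B / A‖ := ⟨_, rfl⟩
  obtain ⟨s, hs⟩ : ∃ s, s = ‖C / A‖ := ⟨_, rfl⟩
  obtain ⟨K, hK⟩ : ∃ K, K = Complex.normSq A := ⟨_, rfl⟩
  have hr0 : 0 < r := by rw [hr]; exact norm_pos_iff.2 (div_ne_zero hB hA)
  have hs0 : 0 < s := by rw [hs]; exact norm_pos_iff.2 (div_ne_zero hC hA)
  have hK0 : 0 < K := by rw [hK]; exact Complex.normSq_pos.2 hA
  have eB : B = A * (B / A) := by field_simp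
  have eC : C = A * (C / A) := by field_simp
  have ha : crc A B = K * r * Real.sin β := by
    have h1 : crc A B = crc (A * 1) (A * (B / A)) := by rw [mul_one, ← eB]
    rw [h1, crc_mul, ← hK]
    unfold crc
    rw [β3, ← hβ, ← hr, Complex.one_re, Complex.one_im]
    ring
  have hc : crc C A = -(K * s * Real.sin γ) := by
    have h1 : crc C A = crc (A * (C / A)) (A * 1) := by rw [mul_one, ← eC]
    rw [h1, crc_mul, ← hK]
    unfold crc
    rw [γ3, ← hγ, ← hs, Complex.one_re, Complex.one_im]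
    ring
  have hb : crc B C = K * r * s * Real.sin (γ - β) := by
    have h1 : crc B C = crc (A * (B / A)) (A * (C / A)) := by rw [← eB, ← eC]
    rw [h1, crc_mul, ← hK]
    unfold crc
    rw [β2, β3, γ2, γ3, ← hβ, ← hγ, ← hr, ← hs, Real.sin_sub]
    ring
  rw [← hβ, ← hγ]
  exact ⟨K * r, K * r * s, K * s, by positivity, by positivity, by positivity, ha, hb, hc⟩

theorem maj_of_ccw {A B C : ℂ} (hA : A ≠ 0) (hB : B ≠ 0) (hC : C ≠ 0) (h0 : 0 < ccw A B)
    (h1 : ccw A B < ccw A C) : Maj (crc A B) (crc B C) (crc C A) := by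
  obtain ⟨P, Q, R, hP, hQ, hR, e1, e2, e3⟩ := polar3 hA hB hC
  have h2 : ccw A C < 2 * Real.pi := (ccw_polar A C).2.1
  rw [e1, e2, e3]
  obtain ⟨β, hβ⟩ : ∃ β, β = ccw A B := ⟨_, rfl⟩
  obtain ⟨γ, hγ⟩ : ∃ γ, γ = ccw A C := ⟨_, rfl⟩
  rw [← hβ] at h0
  rw [← hβ, ← hγ] at h1
  rw [← hγ] at h2
  rw [← hβ, ← hγ]
  have sγ : Real.pi < γ → 0 < -(R * Real.sin γ) := by
    intro h
    have h3 : 0 < Real.sin (γ - Real.pi) := Real.sin_pos_of_pos_of_lt_pi (by linarith) (by linarith)
    rw [Real.sin_sub_pi] at h3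
    have h4 : 0 < R * (-Real.sin γ) := mul_pos hR h3
    linarith
  have sd : γ - β < Real.pi → 0 < Q * Real.sin (γ - β) := by
    intro h
    exact mul_pos hQ (Real.sin_pos_of_pos_of_lt_pi (by linarith) h)
  rcases lt_trichotomy β Real.pi with hb | hb | hb
  · have h3 : 0 < P * Real.sin β := mul_pos hP (Real.sin_pos_of_pos_of_lt_pi h0 hb)
    by_cases h4 : γ - β < Real.pi
    · exact Or.inl ⟨h3, sd h4⟩
    · exact Or.inr (Or.inr ⟨sγ (by linarith), h3⟩)
  · exact Or.inr (Or.inl ⟨sd (by linarith), sγ (by linarith)⟩)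
  · exact Or.inr (Or.inl ⟨sd (by linarith), sγ (by linarith)⟩)

theorem ccw_self {A : ℂ} (hA : A ≠ 0) : ccw A A = 0 := by
  unfold ccw
  rw [div_self hA, Complex.arg_one]
  exact toIcoMod_apply_left _ _

theorem maj_iff_ccw (h : S_ANG) {A B C : ℂ} (hA : A ≠ 0) (hB : B ≠ 0) (hC : C ≠ 0) :
    Maj (crc A B) (crc B C) (crc C A) ↔
      ([ccw A A, ccw A B, ccw A C] : List ℝ).Pairwise (· < ·) := by
  have e0 := ccw_self hA
  constructor
  · intro h1
    obtain ⟨h2, h3⟩ := (h A B C hA hB hC).1 h1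
    simp only [List.pairwise_cons, List.mem_cons, List.not_mem_nil, or_false, forall_eq_or_imp,
      forall_eq, List.Pairwise.nil, and_true, e0]
    exact ⟨⟨h2, h2.trans h3⟩, h3, fun a ha => ha.elim⟩
  · intro h1
    simp only [List.pairwise_cons, List.mem_cons, List.not_mem_nil, or_false, forall_eq_or_imp,
      forall_eq, List.Pairwise.nil, and_true, e0] at h1
    exact maj_of_ccw hA hB hC h1.1.1 h1.2.1

theorem nb_val {N : List (List ℕ)} {hR : IsRotationSystem N} {hC : Cubic N} {u : Fin N.length}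
    {b0 b1 b2 : ℕ} (h : nbs N u = [b0, b1, b2]) :
    ((cub N hR hC).nb u 0).val = b0 ∧ ((cub N hR hC).nb u 1).val = b1 ∧
      ((cub N hR hC).nb u 2).val = b2 := by
  refine ⟨?_, ?_, ?_⟩
  · change (nbs N u)[0]'_ = b0
    simp [h]
  · change (nbs N u)[1]'_ = b1
    simp [h]
  · change (nbs N u)[2]'_ = b2
    simp [h]

theorem nbs3 {N : List (List ℕ)} (hC : Cubic N) {i : ℕ} (hi : i < N.length) :
    ∃ b0 b1 b2, nbs N i = [b0, b1, b2] := List.length_eq_three.1 (hC i hi)

theorem rot_iff {N : List (List ℕ)} {hR : IsRotationSystem N} {hC : Cubic N}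
    {x y : Fin N.length → ℝ} {X Y : ℕ → ℝ} (hx : ∀ k : Fin N.length, x k = X k)
    (hy : ∀ k : Fin N.length, y k = Y k) {u : Fin N.length} {b0 b1 b2 : ℕ}
    (h : nbs N u = [b0, b1, b2]) :
    Rot (cub N hR hC) x y u ↔
      Maj (cr X Y u b0 b1) (cr X Y u b1 b2) (cr X Y u b2 b0) := by
  obtain ⟨h0, h1, h2⟩ := nb_val (hR := hR) (hC := hC) h
  unfold Rot cr
  rw [hx, hx, hx, hx, hy, hy, hy, hy, h0, h1, h2]

theorem draw_iff (ha : S_ANG) {N : List (List ℕ)} (hR : IsRotationSystem N) (hC : Cubic N)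
    (p : ℕ → ℂ) :
    (IsDrawing N p ∧ Realizes N p) ↔
      Draw (cub N hR hC) (fun k => (p k).re) (fun k => (p k).im) := by
  unfold Draw
  have hinj : (∀ i < N.length, ∀ j < N.length, p i = p j → i = j) ↔
      ∀ u v : Fin N.length, u ≠ v → (p u).re = (p v).re → (p u).im ≠ (p v).im := by
    constructor
    · intro h u v huv h1 h2
      exact huv (Fin.ext (h u u.2 v v.2 (Complex.ext h1 h2)))
    · intro h i hi j hj hij
      by_contra hne
      exact h ⟨i, hi⟩ ⟨j, hj⟩ (fun h' => hne (congrArg Fin.val h')) (congrArg Complex.re hij)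
        (congrArg Complex.im hij)
  have hseg : (∀ i < N.length, ∀ j < N.length, p i = p j → i = j) →
      ((∀ i < N.length, ∀ j ∈ nbs N i, ∀ k < N.length, p k ∉ openSegment ℝ (p i) (p j)) ↔
      ∀ (u : Fin N.length) (i : Fin 3) (z : Fin N.length), z ≠ u → z ≠ (cub N hR hC).nb u i →
        ∀ t : ℝ, 0 < t → t < 1 →
        (p z).re = (1 - t) * (p u).re + t * (p ((cub N hR hC).nb u i)).re →
          (p z).im ≠ (1 - t) * (p u).im + t * (p ((cub N hR hC).nb u i)).im) := by
    intro hd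
    constructor
    · intro h u i z hzu hzi t ht0 ht1 h1 h2
      refine h u u.2 _ (List.getElem_mem (by rw [hC u u.2]; exact i.2)) z z.2 ?_
      rw [openSegment_eq_image]
      refine ⟨t, ⟨ht0, ht1⟩, ?_⟩
      refine Complex.ext ?_ ?_
      · rw [h1]
        simp [cub]
      · rw [h2]
        simp [cub]
    · intro h i hi j hj k hk hmem
      rw [openSegment_eq_image] at hmem
      obtain ⟨t, ⟨ht0, ht1⟩, ht⟩ := hmem
      have hjl : j < N.length := hR.lt i hi j hj
      have hij : i ≠ j := fun h' => hR.irr i hi (h' ▸ hj)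
      have hpij : p i ≠ p j := fun h' => hij (hd i hi j hjl h')
      obtain ⟨m, hm, hmj⟩ := List.getElem_of_mem hj
      have hm3 : m < 3 := by rw [← hC i hi]; exact hm
      have hnb : (cub N hR hC).nb ⟨i, hi⟩ ⟨m, hm3⟩ = ⟨j, hjl⟩ := Fin.ext hmj
      have hre : (p k).re = (1 - t) * (p i).re + t * (p j).re := by
        rw [← ht]; simp
      have him : (p k).im = (1 - t) * (p i).im + t * (p j).im := by
        rw [← ht]; simp
      have hki : k ≠ i := by
        rintro rfl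
        apply hpij
        refine Complex.ext ?_ ?_
        · have : t * ((p k).re - (p j).re) = 0 := by linarith
          rcases mul_eq_zero.1 this with h' | h' <;> linarith
        · have : t * ((p k).im - (p j).im) = 0 := by linarith
          rcases mul_eq_zero.1 this with h' | h' <;> linarith
      have hkj : k ≠ j := by
        rintro rfl
        apply hpij
        refine Complex.ext ?_ ?_
        · have : (1 - t) * ((p i).re - (p k).re) = 0 := by linarith
          rcases mul_eq_zero.1 this with h' | h' <;> linarith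
        · have : (1 - t) * ((p i).im - (p k).im) = 0 := by linarith
          rcases mul_eq_zero.1 this with h' | h' <;> linarith
      refine h ⟨i, hi⟩ ⟨m, hm3⟩ ⟨k, hk⟩ (fun h' => hki (congrArg Fin.val h')) ?_ t ht0 ht1 ?_ ?_
      · rw [hnb]
        exact fun h' => hkj (congrArg Fin.val h')
      · rw [hnb]; exact hre
      · rw [hnb]; exact him
  have hrot : (∀ i < N.length, ∀ j < N.length, p i = p j → i = j) →
      (Realizes N p ↔
        ∀ u, Rot (cub N hR hC) (fun k => (p k).re) (fun k => (p k).im) u) := by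
    intro hd
    have key : ∀ u : Fin N.length, (∀ a ∈ (nbs N u).head?,
        ((nbs N u).map fun b => ccw (p a - p u) (p b - p u)).Pairwise (· < ·)) ↔
        Rot (cub N hR hC) (fun k => (p k).re) (fun k => (p k).im) u := by
      intro u
      obtain ⟨b0, b1, b2, hb⟩ := nbs3 hC u.2
      rw [rot_iff (X := fun k => (p k).re) (Y := fun k => (p k).im) (fun _ => rfl) (fun _ => rfl) hb,
        hb]
      have hne : ∀ b ∈ nbs N u, p b - p u ≠ 0 := by
        intro b hbm h'
        have h1 := hd b (hR.lt u u.2 b hbm) u u.2 (sub_eq_zero.1 h')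
        exact hR.irr u u.2 (h1 ▸ hbm)
      have n0 : p b0 - p u ≠ 0 := hne b0 (by rw [hb]; simp)
      have n1 : p b1 - p u ≠ 0 := hne b1 (by rw [hb]; simp)
      have n2 : p b2 - p u ≠ 0 := hne b2 (by rw [hb]; simp)
      have e := maj_iff_ccw ha n0 n1 n2
      have c : ∀ a b : ℕ, cr (fun k => (p k).re) (fun k => (p k).im) u a b =
          crc (p a - p u) (p b - p u) := by
        intro a b
        unfold cr crc
        rw [Complex.sub_re, Complex.sub_re, Complex.sub_im, Complex.sub_im]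
      rw [c, c, c, e]
      simp
    constructor
    · intro h u
      exact (key u).1 (h u u.2)
    · intro h i hi
      exact (key ⟨i, hi⟩).2 (h ⟨i, hi⟩)
  constructor
  · rintro ⟨⟨h1, h2⟩, h3⟩
    exact ⟨hinj.1 h1, (hseg h1).1 h2, (hrot h1).1 h3⟩
  · rintro ⟨h1, h2, h3⟩
    have h1' := hinj.2 h1
    exact ⟨⟨h1', (hseg h1').2 h2⟩, (hrot h1').2 h3⟩

theorem drw (h : S_ANG) : S_DRW := by
  intro N hR hC
  constructor
  · rintro ⟨p, hp⟩
    exact ⟨_, _, (draw_iff h hR hC p).1 hp⟩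
  · rintro ⟨x, y, hxy⟩
    refine ⟨fun k => if hk : k < N.length then ⟨x ⟨k, hk⟩, y ⟨k, hk⟩⟩ else 0, ?_⟩
    rw [draw_iff h hR hC]
    convert hxy using 2
    · rename_i k
      simp
    · rename_i k
      simp

end Pool.Agent.Q47.RS
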