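import Pool.Agent.Q230.RS.St

/-!
# Project RS (helper230): RS-INS, RS-CYC, RS-CYX
-/

set_option autoImplicit false

namespace Pool.Agent.Q47.RS

open Pool.Agent.Q230.RS

theorem ins : S_INS := by
  intro V _ x y S c a b v ξ hB hc ha hb hv hab hca hcb hcξ hξ hcr
  have hne : ∀ z ∈ S, z ≠ v := fun z hz h => hv (h ▸ hz)
  -- the bounds
  obtain ⟨lo, hlo⟩ : ∃ lo : ℝ, lo = y c + (y b - y c) * (ξ - x c) / (x b - x c) := ⟨_, rfl⟩
  obtain ⟨hi, hhi⟩ : ∃ hi : ℝ, hi = y c + (y a - y c) * (ξ - x c) / (x a - x c) := ⟨_, rfl⟩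
  have hxb : 0 < x b - x c := by linarith
  have hxa : 0 < x a - x c := by linarith
  have hxξ : 0 < ξ - x c := by linarith
  have hlohi : lo < hi := by
    rw [hlo, hhi]
    have h1 : (y b - y c) * (ξ - x c) / (x b - x c) < (y a - y c) * (ξ - x c) / (x a - x c) := by
      rw [div_lt_div_iff₀ hxb hxa]
      unfold cr at hcr
      have h2 : (y b - y c) * (x a - x c) < (y a - y c) * (x b - x c) := by linarith
      have h3 := mul_lt_mul_of_pos_right h2 hxξ
      linarith
    linarith
  obtain ⟨η, ⟨hη1, hη2⟩, hη3⟩ := (Set.Ioo_infinite hlohi).exists_notMem_finset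
    ((S ×ˢ S).image (fun p => y p.1 + (y p.2 - y p.1) * (ξ - x p.1) / (x p.2 - x p.1)))
  refine ⟨Function.update x v ξ, Function.update y v η, ?_⟩
  have hx : ∀ z ∈ S, Function.update x v ξ z = x z := fun z hz => by
    rw [Function.update_of_ne (hne z hz)]
  have hy : ∀ z ∈ S, Function.update y v η z = y z := fun z hz => by
    rw [Function.update_of_ne (hne z hz)]
  have hxv : Function.update x v ξ v = ξ := by simp
  have hyv : Function.update y v η v = η := by simp
  refine ⟨hx, hy, hxv, ⟨?_, ?_⟩, ?_, ?_⟩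
  · intro p hp q hq hpq
    rcases Finset.mem_insert.1 hp with hp1 | hp1 <;> rcases Finset.mem_insert.1 hq with hq1 | hq1
    · exact absurd (hp1.trans hq1.symm) hpq
    · rw [hp1, hxv, hx q hq1]; exact (hξ q hq1).symm
    · rw [hq1, hxv, hx p hp1]; exact hξ p hp1
    · rw [hx p hp1, hx q hq1]; exact hB.1 p hp1 q hq1 hpq
  · have key : ∀ p ∈ S, ∀ q ∈ S, p ≠ q →
        cr (Function.update x v ξ) (Function.update y v η) p q v ≠ 0 := by
      intro p hp q hq hpq h0
      unfold cr at h0
      rw [hx p hp, hx q hq, hy p hp, hy q hq, hxv, hyv] at h0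
      have h1 := hB.1 p hp q hq hpq
      have h2 : x q - x p ≠ 0 := sub_ne_zero.2 h1.symm
      apply hη3
      rw [Finset.mem_image]
      refine ⟨(p, q), Finset.mem_product.2 ⟨hp, hq⟩, ?_⟩
      show y p + (y q - y p) * (ξ - x p) / (x q - x p) = η
      field_simp
      linarith
    intro a ha b hb c hc hab hbc hac
    rcases Finset.mem_insert.1 ha with ha1 | ha1 <;> rcases Finset.mem_insert.1 hb with hb1 | hb1 <;>
      rcases Finset.mem_insert.1 hc with hc1 | hc1
    · exact absurd (ha1.trans hb1.symm) hab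
    · exact absurd (ha1.trans hb1.symm) hab
    · exact absurd (ha1.trans hc1.symm) hac
    · rw [ha1, cr_rot]; exact key b hb1 c hc1 hbc
    · exact absurd (hb1.trans hc1.symm) hbc
    · rw [hb1, cr_rot, cr_rot]; exact key c hc1 a ha1 hac.symm
    · rw [hc1]; exact key a ha1 b hb1 hab
    · rw [cr_congr (hx a ha1) (hx b hb1) (hx c hc1) (hy a ha1) (hy b hb1) (hy c hc1)]
      exact hB.2 a ha1 b hb1 c hc1 hab hbc hac
  · unfold cr
    rw [hx c hc, hx b hb, hy c hc, hy b hb, hxv, hyv]
    have h1 : (y b - y c) * (ξ - x c) / (x b - x c) < η - y c := by linarith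
    rw [div_lt_iff₀ hxb] at h1
    linarith
  · unfold cr
    rw [hx c hc, hx a ha, hy c hc, hy a ha, hxv, hyv]
    have h1 : η - y c < (y a - y c) * (ξ - x c) / (x a - x c) := by linarith
    rw [lt_div_iff₀ hxa] at h1
    linarith

theorem exists_other {V : Type} (G : Cub V) (p v : V) : ∃ l, G.nb v l ≠ p := by
  by_contra h
  push Not at h
  have h1 := G.inj v ((h 0).trans (h 1).symm)
  exact absurd h1 (by decide)

theorem exists_cyc (V : Type) [Finite V] [Nonempty V] (G : Cub V) : ∃ k c, IsCyc G k c := by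
  classical
  obtain ⟨v0⟩ := ‹Nonempty V›
  choose nx hnx using exists_other G
  obtain ⟨p, hp⟩ : ∃ p : ℕ → V × V, p = fun n =>
    (fun q : V × V => (q.2, G.nb q.2 (nx q.1 q.2)))^[n] (v0, G.nb v0 0) := ⟨_, rfl⟩
  have hps : ∀ n, p (n + 1) = ((p n).2, G.nb (p n).2 (nx (p n).1 (p n).2)) := by
    intro n
    rw [hp]
    simp only
    rw [Function.iterate_succ_apply']
  obtain ⟨w, hw⟩ : ∃ w : ℕ → V, w = fun n => (p n).1 := ⟨_, rfl⟩
  have hw1 : ∀ n, w (n + 1) = (p n).2 := by
    intro n
    rw [hw]
    simp only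
    rw [hps]
  have hadj : ∀ n, ∃ l, G.nb (w n) l = w (n + 1) := by
    intro n
    cases n with
    | zero =>
      refine ⟨0, ?_⟩
      rw [hw1, hw, hp]
      rfl
    | succ n =>
      refine ⟨nx (p n).1 (p n).2, ?_⟩
      rw [hw1 n, hw1 (n + 1), hps]
  have hback : ∀ n, w (n + 2) ≠ w n := by
    intro n
    rw [hw1 (n + 1), hps]
    have h1 := hnx (p n).1 (p n).2
    rw [hw]
    exact h1
  obtain ⟨i, j, hij, hwij⟩ := Finite.exists_ne_map_eq_of_infinite w
  have hex : ∃ d, 0 < d ∧ ∃ i, w i = w (i + d) := by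
    rcases Nat.lt_or_gt_of_ne hij with h | h
    · exact ⟨j - i, by omega, i, by rw [hwij]; congr 1; omega⟩
    · exact ⟨i - j, by omega, j, by rw [← hwij]; congr 1; omega⟩
  obtain ⟨d, hd⟩ : ∃ d, d = Nat.find hex := ⟨_, rfl⟩
  obtain ⟨hd0, i, hi⟩ := Nat.find_spec hex
  have hmin : ∀ e, 0 < e → e < d → ∀ i, w i ≠ w (i + e) := by
    intro e he hed i hei
    rw [hd] at hed
    exact Nat.find_min hex hed ⟨he, i, hei⟩
  rw [← hd] at hd0 hi
  refine ⟨d, fun m => w (i + m), ⟨?_, ?_, ?_, ?_⟩⟩
  · by_contra hcon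
    have h12 : d = 1 ∨ d = 2 := by omega
    rcases h12 with h | h
    · obtain ⟨l, hl⟩ := hadj i
      rw [h] at hi
      rw [← hi] at hl
      exact G.irr _ _ hl
    · rw [h] at hi
      exact hback i hi.symm
  · intro a ha b hb hab
    by_contra hne
    rcases Nat.lt_or_gt_of_ne hne with h | h
    · apply hmin (b - a) (by omega) (by omega) (i + a)
      rw [hab]
      congr 1
      omega
    · apply hmin (a - b) (by omega) (by omega) (i + b)
      rw [← hab]
      congr 1
      omega
  · intro m _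
    exact hadj (i + m)
  · obtain ⟨l, hl⟩ := hadj (i + (d - 1))
    refine ⟨l, ?_⟩
    show G.nb (w (i + (d - 1))) l = w (i + 0)
    have e : i + (d - 1) + 1 = i + d := by omega
    rw [hl, e]
    exact hi.symm

theorem cyc : S_CYC := by
  classical
  intro V _ _ G
  have hex : ∃ k, ∃ c, IsCyc G k c := exists_cyc V G
  obtain ⟨c, hc⟩ := Nat.find_spec hex
  refine ⟨Nat.find hex, c, hc, fun k' c' hc' => ?_⟩
  exact Nat.find_min' hex ⟨c', hc'⟩

theorem nb_sym {V : Type} {G : Cub V} {a b : V} (h : ∃ l, G.nb a l = b) : ∃ l, G.nb b l = a := by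
  obtain ⟨l, rfl⟩ := h
  exact G.sym a l

/-- rotation of a cycle -/
theorem IsCyc_rot {V : Type} {G : Cub V} {k : ℕ} {c : ℕ → V} (h : IsCyc G k c) {r : ℕ} (hr : r < k) :
    IsCyc G k (fun m => if r + m < k then c (r + m) else c (r + m - k)) := by
  have h3 := h.k3
  refine ⟨h.k3, ?_, ?_, ?_⟩
  · intro i hi j hj hij
    split_ifs at hij with h1 h2 h2
    · have := h.inj _ h1 _ h2 hij
      omega
    · have := h.inj _ h1 _ (by omega) hij
      omega
    · have := h.inj _ (by omega) _ h2 hij
      omega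
    · have := h.inj _ (by omega) _ (by omega) hij
      omega
  · intro i hi
    by_cases h1 : r + i < k
    · rw [if_pos h1]
      by_cases h2 : r + (i + 1) < k
      · rw [if_pos h2]
        exact h.adj (r + i) (by omega)
      · rw [if_neg h2]
        have e1 : r + i = k - 1 := by omega
        have e2 : r + (i + 1) - k = 0 := by omega
        rw [e1, e2]
        exact h.cl
    · rw [if_neg h1, if_neg (by omega)]
      have e2 : r + (i + 1) - k = r + i - k + 1 := by omega
      rw [e2]
      exact h.adj _ (by omega)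
  · rw [Nat.add_zero, if_pos hr]
    rcases Nat.eq_zero_or_pos r with h0 | h0
    · rw [h0, if_pos (by omega), Nat.zero_add]
      exact h.cl
    · rw [if_neg (by omega)]
      have e : r + (k - 1) - k = r - 1 := by omega
      rw [e]
      have h4 := h.adj (r - 1) (by omega)
      have e2 : r - 1 + 1 = r := by omega
      rwa [e2] at h4

theorem MinCyc_rot {V : Type} {G : Cub V} {k : ℕ} {c : ℕ → V} (h : MinCyc G k c) {r : ℕ} (hr : r < k) :
    MinCyc G k (fun m => if r + m < k then c (r + m) else c (r + m - k)) :=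
  ⟨IsCyc_rot h.1 hr, h.2⟩

theorem cyx1 {V : Type} {G : Cub V} {k : ℕ} {c : ℕ → V} (h : MinCyc G k c) {i j : ℕ} (hij : i < j) (hj : j < k)
    (hl : ∃ l, G.nb (c i) l = c j) : j = i + 1 ∨ (i = 0 ∧ j = k - 1) := by
  by_cases h1 : j = i + 1
  · exact Or.inl h1
  · right
    have h2 : IsCyc G (j - i + 1) (fun m => c (i + m)) := by
      refine ⟨by omega, ?_, ?_, ?_⟩
      · intro a ha b hb hab
        have := h.1.inj _ (by omega) _ (by omega) hab
        omega
      · intro m hm
        exact h.1.adj (i + m) (by omega)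
      · show ∃ l, G.nb (c (i + (j - i + 1 - 1))) l = c (i + 0)
        have e : i + (j - i + 1 - 1) = j := by omega
        rw [e, Nat.add_zero]
        exact nb_sym hl
    have h3 := h.2 _ _ h2
    omega

theorem cyx2 {V : Type} {G : Cub V} {k : ℕ} {c : ℕ → V} (h : MinCyc G k c) {z : V} (hz : ∀ i < k, c i ≠ z)
    {i j : ℕ} (hij : i < j) (hj : j < k) (h1 : ∃ l, G.nb z l = c i) (h2 : ∃ l, G.nb z l = c j) :
    k ≤ j - i + 2 := by
  have h3 : IsCyc G (j - i + 2) (fun m => if m = 0 then z else c (i + (m - 1))) := by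
    refine ⟨by omega, ?_, ?_, ?_⟩
    · intro a ha b hb hab
      split_ifs at hab with h4 h5 h5
      · omega
      · exact absurd hab.symm (hz _ (by omega))
      · exact absurd hab (hz _ (by omega))
      · have := h.1.inj _ (by omega) _ (by omega) hab
        omega
    · intro m hm
      rw [if_neg (Nat.succ_ne_zero m), Nat.add_sub_cancel]
      by_cases h4 : m = 0
      · rw [if_pos h4, h4, Nat.add_zero]
        exact h1
      · rw [if_neg h4]
        have h5 := h.1.adj (i + (m - 1)) (by omega)
        have e : i + (m - 1) + 1 = i + m := by omega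
        rwa [e] at h5
    · show ∃ l, G.nb (if j - i + 2 - 1 = 0 then z else c (i + (j - i + 2 - 1 - 1))) l = if 0 = 0 then z else c (i + (0 - 1))
      rw [if_neg (by omega), if_pos rfl]
      have e : i + (j - i + 2 - 1 - 1) = j := by omega
      rw [e]
      exact nb_sym h2
  exact h.2 _ _ h3

theorem cyx3 {V : Type} {G : Cub V} {k : ℕ} {c : ℕ → V} (h : MinCyc G k c) {v a : V} (hva : v ≠ a)
    (hv : ∀ i < k, c i ≠ v) (ha : ∀ i < k, c i ≠ a) (h1 : ∃ l, G.nb v l = c 0) (h2 : ∃ l, G.nb v l = a)
    {m : ℕ} (hm : m < k) (h3 : ∃ l, G.nb a l = c m) : k ≤ m + 3 := by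
  have h4 : IsCyc G (m + 3) (fun i => if i ≤ m then c i else if i = m + 1 then a else v) := by
    refine ⟨by omega, ?_, ?_, ?_⟩
    · intro i hi j hj hij
      split_ifs at hij with i1 j1 j2 i2 j1 j2 j1 j2
      · exact h.1.inj _ (by omega) _ (by omega) hij
      · exact absurd hij (ha _ (by omega))
      · exact absurd hij (hv _ (by omega))
      · exact absurd hij.symm (ha _ (by omega))
      · omega
      · exact absurd hij.symm hva
      · exact absurd hij.symm (hv _ (by omega))
      · exact absurd hij hva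
      · omega
    · intro i hi
      by_cases i1 : i ≤ m
      · rw [if_pos i1]
        by_cases i2 : i + 1 ≤ m
        · rw [if_pos i2]
          exact h.1.adj i (by omega)
        · rw [if_neg i2, if_pos (by omega)]
          have e : i = m := by omega
          rw [e]
          exact nb_sym h3
      · rw [if_neg i1, if_neg (by omega : ¬ i + 1 ≤ m), if_pos (by omega), if_neg (by omega)]
        exact nb_sym h2
    · show ∃ l, G.nb (if m + 3 - 1 ≤ m then c (m + 3 - 1) else if m + 3 - 1 = m + 1 then a else v) l =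
        if 0 ≤ m then c 0 else if 0 = m + 1 then a else v
      rw [if_neg (by omega), if_neg (by omega), if_pos (Nat.zero_le m)]
      exact h1
  exact h.2 _ _ h4

theorem cyx : S_CYX := by
  intro V G k c h
  have hk3 := h.1.k3
  refine ⟨fun i j hij hj hl => cyx1 h hij hj hl, ?_, ?_⟩
  · intro z hz i j hij hj h1 h2
    refine ⟨cyx2 h hz hij hj h1 h2, ?_⟩
    have h3 := cyx2 (MinCyc_rot h hj) (z := z) (fun m hm => by
      split_ifs with h4
      · exact hz _ h4
      · exact hz _ (by omega)) (i := 0) (j := k - j + i) (by omega) (by omega) (by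
        rw [Nat.add_zero, if_pos hj]
        exact h2) (by
        rw [if_neg (by omega)]
        have e : j + (k - j + i) - k = i := by omega
        rw [e]
        exact h1)
    omega
  · intro hk4 v a hva hv ha h1 h2 m hm h3
    have h4 := cyx3 h hva hv ha h1 h2 hm h3
    refine ⟨h4, ?_⟩
    have h5 := cyx3 (MinCyc_rot h hm) (v := a) (a := v) hva.symm (fun i hi => by
      split_ifs with h6
      · exact ha _ h6
      · exact ha _ (by omega)) (fun i hi => by
      split_ifs with h6
      · exact hv _ h6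
      · exact hv _ (by omega)) (by
        rw [Nat.add_zero, if_pos hm]
        exact h3) (nb_sym h2) (m := k - m) (by omega) (by
        rw [if_neg (by omega)]
        have e : m + (k - m) - k = 0 := by omega
        rw [e]
        exact h1)
    omega

end Pool.Agent.Q47.RS
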