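import Pool.Agent.Q230.RS.St

/-!
# Project RS (helper230): RS-KFN, RS-KFS
-/

set_option autoImplicit false

namespace Pool.Agent.Q47.RS

open Pool.Agent.Q230.RS

theorem Maj_one {a b c : ℝ} (h : Maj (1 * a) (1 * b) (1 * c)) : Maj a b c := by
  simpa only [one_mul] using h

theorem Maj_neg {a b c : ℝ} (h : Maj (-1 * a) (-1 * b) (-1 * c)) : Maj (-a) (-b) (-c) := by
  simpa only [neg_one_mul] using h

theorem kfn : S_KFN := by
  intro x y e _ he M0 M1 M2 M3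
  obtain ⟨A, hA⟩ : ∃ A, A = cr x y 0 1 2 := ⟨_, rfl⟩
  obtain ⟨B, hB⟩ : ∃ B, B = cr x y 0 1 3 := ⟨_, rfl⟩
  obtain ⟨C, hC⟩ : ∃ C, C = cr x y 0 2 3 := ⟨_, rfl⟩
  obtain ⟨D, hD⟩ : ∃ D, D = cr x y 1 2 3 := ⟨_, rfl⟩
  have hid : A - B + C - D = 0 := by
    rw [hA, hB, hC, hD]
    unfold cr
    ring
  have e031 : cr x y 0 3 1 = -B := by rw [hB]; unfold cr; ring
  have e102 : cr x y 1 0 2 = -A := by rw [hA]; unfold cr; ring
  have e130 : cr x y 1 3 0 = B := by rw [hB]; unfold cr; ring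
  have e201 : cr x y 2 0 1 = A := by rw [hA]; unfold cr; ring
  have e213 : cr x y 2 1 3 = -D := by rw [hD]; unfold cr; ring
  have e230 : cr x y 2 3 0 = C := by rw [hC]; unfold cr; ring
  have e301 : cr x y 3 0 1 = B := by rw [hB]; unfold cr; ring
  have e312 : cr x y 3 1 2 = D := by rw [hD]; unfold cr; ring
  have e320 : cr x y 3 2 0 = -C := by rw [hC]; unfold cr; ring
  rw [← hA, ← hC, e031] at M0
  rw [e102, ← hD, e130] at M1
  rw [e201, e213, e230] at M2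
  rw [e301, e312, e320] at M3
  clear hA hB hC hD e031 e102 e130 e201 e213 e230 e301 e312 e320
  rcases he 0 with h0 | h0 <;> rcases he 1 with h1 | h1 <;> rcases he 2 with h2 | h2 <;>
    rcases he 3 with h3 | h3 <;> rw [h0] at M0 <;> rw [h1] at M1 <;> rw [h2] at M2 <;> rw [h3] at M3 <;>
    rw [h0, h1, h2, h3] <;>
    first
    | norm_num; done
    | (exfalso
       rcases M0 with ⟨a1, a2⟩ | ⟨a1, a2⟩ | ⟨a1, a2⟩ <;> rcases M1 with ⟨b1, b2⟩ | ⟨b1, b2⟩ | ⟨b1, b2⟩ <;>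
       rcases M2 with ⟨c1, c2⟩ | ⟨c1, c2⟩ | ⟨c1, c2⟩ <;> rcases M3 with ⟨d1, d2⟩ | ⟨d1, d2⟩ | ⟨d1, d2⟩ <;>
       linarith)

/-- integer version -/
def crz (p q : Fin 4 → ℤ) (a b c : Fin 4) : ℤ := (p b - p a) * (q c - q a) - (q b - q a) * (p c - p a)

theorem cr_cast (p q : Fin 4 → ℤ) (a b c : Fin 4) :
    cr (fun i => (p i : ℝ)) (fun i => (q i : ℝ)) a b c = (crz p q a b c : ℤ) := by
  unfold cr crz
  push_cast
  ring

/-- integer majority -/
def Mz (a b c : ℤ) : Prop := (0 < a ∧ 0 < b) ∨ (0 < b ∧ 0 < c) ∨ (0 < c ∧ 0 < a)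

instance (a b c : ℤ) : Decidable (Mz a b c) := by
  unfold Mz
  infer_instance

theorem Mz_cast {a b c : ℤ} (h : Mz a b c) : Maj (a : ℝ) (b : ℝ) (c : ℝ) := by
  unfold Mz at h
  unfold Maj
  exact_mod_cast h

/-- the integer certificate -/
def Cert (p q s : Fin 4 → ℤ) : Prop :=
  (∀ a b : Fin 4, a ≠ b → p a ≠ p b) ∧
  (∀ a b c : Fin 4, a ≠ b → b ≠ c → a ≠ c → crz p q a b c ≠ 0) ∧
  Mz (s 0 * crz p q 0 1 2) (s 0 * crz p q 0 2 3) (s 0 * crz p q 0 3 1) ∧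
  Mz (s 1 * crz p q 1 0 2) (s 1 * crz p q 1 2 3) (s 1 * crz p q 1 3 0) ∧
  Mz (s 2 * crz p q 2 0 1) (s 2 * crz p q 2 1 3) (s 2 * crz p q 2 3 0) ∧
  Mz (s 3 * crz p q 3 0 1) (s 3 * crz p q 3 1 2) (s 3 * crz p q 3 2 0)

instance (p q s : Fin 4 → ℤ) : Decidable (Cert p q s) := by
  unfold Cert
  infer_instance

theorem of_cert {p q s : Fin 4 → ℤ} (h : Cert p q s) {e : Fin 4 → ℝ} (he : ∀ i, e i = (s i : ℝ)) :
    ∃ x y : Fin 4 → ℝ, Bs x y Finset.univ ∧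
    Maj (e 0 * cr x y 0 1 2) (e 0 * cr x y 0 2 3) (e 0 * cr x y 0 3 1) ∧
    Maj (e 1 * cr x y 1 0 2) (e 1 * cr x y 1 2 3) (e 1 * cr x y 1 3 0) ∧
    Maj (e 2 * cr x y 2 0 1) (e 2 * cr x y 2 1 3) (e 2 * cr x y 2 3 0) ∧
    Maj (e 3 * cr x y 3 0 1) (e 3 * cr x y 3 1 2) (e 3 * cr x y 3 2 0) := by
  obtain ⟨h1, h2, h3, h4, h5, h6⟩ := h
  refine ⟨fun i => (p i : ℝ), fun i => (q i : ℝ), ⟨?_, ?_⟩, ?_, ?_, ?_, ?_⟩
  · intro a _ b _ hab h
    exact h1 a b hab (Int.cast_injective (α := ℝ) h)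
  · intro a _ b _ c _ hab hbc hac h
    rw [cr_cast] at h
    exact h2 a b c hab hbc hac (by exact_mod_cast h)
  · have := Mz_cast h3
    rw [he, cr_cast, cr_cast, cr_cast]
    push_cast at this
    exact this
  · have := Mz_cast h4
    rw [he, cr_cast, cr_cast, cr_cast]
    push_cast at this
    exact this
  · have := Mz_cast h5
    rw [he, cr_cast, cr_cast, cr_cast]
    push_cast at this
    exact this
  · have := Mz_cast h6
    rw [he, cr_cast, cr_cast, cr_cast]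
    push_cast at this
    exact this

theorem of4 {e : Fin 4 → ℝ} {s0 s1 s2 s3 : ℤ} (h0 : e 0 = (s0 : ℝ)) (h1 : e 1 = (s1 : ℝ))
    (h2 : e 2 = (s2 : ℝ)) (h3 : e 3 = (s3 : ℝ)) : ∀ i, e i = ((![s0, s1, s2, s3] i : ℤ) : ℝ) := by
  intro i
  fin_cases i
  · exact h0
  · exact h1
  · exact h2
  · exact h3

theorem kfs : S_KFS := by
  intro e he hprod
  rcases he 0 with h0 | h0 <;> rcases he 1 with h1 | h1 <;> rcases he 2 with h2 | h2 <;>
    rcases he 3 with h3 | h3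
  · exact of_cert (p := ![-3, 1, 2, 0]) (q := ![0, -1, -1, 1]) (s := ![1, 1, 1, 1]) (by decide)
      (of4 (by rw [h0]; norm_num) (by rw [h1]; norm_num) (by rw [h2]; norm_num) (by rw [h3]; norm_num))
  · rw [h0, h1, h2, h3] at hprod; norm_num at hprod
  · rw [h0, h1, h2, h3] at hprod; norm_num at hprod
  · exact of_cert (p := ![-3, 0, 1, 2]) (q := ![2, 1, 0, 0]) (s := ![1, 1, -1, -1]) (by decide)
      (of4 (by rw [h0]; norm_num) (by rw [h1]; norm_num) (by rw [h2]; norm_num) (by rw [h3]; norm_num))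
  · rw [h0, h1, h2, h3] at hprod; norm_num at hprod
  · exact of_cert (p := ![0, -3, 2, -1]) (q := ![0, -1, 0, 1]) (s := ![1, -1, 1, -1]) (by decide)
      (of4 (by rw [h0]; norm_num) (by rw [h1]; norm_num) (by rw [h2]; norm_num) (by rw [h3]; norm_num))
  · exact of_cert (p := ![2, -1, 0, 1]) (q := ![1, 0, 0, 1]) (s := ![1, -1, -1, 1]) (by decide)
      (of4 (by rw [h0]; norm_num) (by rw [h1]; norm_num) (by rw [h2]; norm_num) (by rw [h3]; norm_num))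
  · rw [h0, h1, h2, h3] at hprod; norm_num at hprod
  · rw [h0, h1, h2, h3] at hprod; norm_num at hprod
  · exact of_cert (p := ![-2, 2, 1, -1]) (q := ![-1, 0, -1, 0]) (s := ![-1, 1, 1, -1]) (by decide)
      (of4 (by rw [h0]; norm_num) (by rw [h1]; norm_num) (by rw [h2]; norm_num) (by rw [h3]; norm_num))
  · exact of_cert (p := ![-1, 1, 0, -3]) (q := ![1, 0, 0, -1]) (s := ![-1, 1, -1, 1]) (by decide)
      (of4 (by rw [h0]; norm_num) (by rw [h1]; norm_num) (by rw [h2]; norm_num) (by rw [h3]; norm_num))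
  · rw [h0, h1, h2, h3] at hprod; norm_num at hprod
  · exact of_cert (p := ![0, -1, -2, -3]) (q := ![0, 1, -1, 0]) (s := ![-1, -1, 1, 1]) (by decide)
      (of4 (by rw [h0]; norm_num) (by rw [h1]; norm_num) (by rw [h2]; norm_num) (by rw [h3]; norm_num))
  · rw [h0, h1, h2, h3] at hprod; norm_num at hprod
  · rw [h0, h1, h2, h3] at hprod; norm_num at hprod
  · exact of_cert (p := ![0, 2, 1, -1]) (q := ![0, 3, 0, -2]) (s := ![-1, -1, -1, -1]) (by decide)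
      (of4 (by rw [h0]; norm_num) (by rw [h1]; norm_num) (by rw [h2]; norm_num) (by rw [h3]; norm_num))

end Pool.Agent.Q47.RS
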