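import Pool.Agent.Q47.RS.Drw
import Pool.Agent.Q47.RS.K4

/-!
# Project RS (helper230): RS-KEV and RS-KOD
-/

set_option autoImplicit false

namespace Pool.Agent.Q47.RS

open Pool.Agent.Q230.RS

/-- `kfn` without the hypothesis of general position -/
theorem kfn0 (x y : Fin 4 → ℝ) (e : Fin 4 → ℝ)
    (he : ∀ i, e i = 1 ∨ e i = -1)
    (M0 : Maj (e 0 * cr x y 0 1 2) (e 0 * cr x y 0 2 3) (e 0 * cr x y 0 3 1))
    (M1 : Maj (e 1 * cr x y 1 0 2) (e 1 * cr x y 1 2 3) (e 1 * cr x y 1 3 0))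
    (M2 : Maj (e 2 * cr x y 2 0 1) (e 2 * cr x y 2 1 3) (e 2 * cr x y 2 3 0))
    (M3 : Maj (e 3 * cr x y 3 0 1) (e 3 * cr x y 3 1 2) (e 3 * cr x y 3 2 0)) :
    e 0 * e 1 * e 2 * e 3 = 1 := by
  obtain ⟨A, hA⟩ : ∃ A, A = cr x y 0 1 2 := ⟨_, rfl⟩
  obtain ⟨B, hB⟩ : ∃ B, B = cr x y 0 1 3 := ⟨_, rfl⟩
  obtain ⟨C, hC⟩ : ∃ C, C = cr x y 0 2 3 := ⟨_, rfl⟩
  obtain ⟨D, hD⟩ : ∃ D, D = cr x y 1 2 3 := ⟨_, rfl⟩
  have hid : A - B + C - D = 0 := by
    rw [hA, hB, hC, hD]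
    unfold cr
    ring
  have e031 : cr x y 0 3 1 = -B := by rw [hB]; unfold cr; ring
  have e102 : cr x y 1 0 2 = -A := by rw [hA]; unfold cr; ring
  have e130 : cr x y 1 3 0 = B := by rw [hB]; unfold cr; ring
  have e201 : cr x y 2 0 1 = A := by rw [hA]; unfold cr; ring
  have e213 : cr x y 2 1 3 = -D := by rw [hD]; unfold cr; ring
  have e230 : cr x y 2 3 0 = C := by rw [hC]; unfold cr; ring
  have e301 : cr x y 3 0 1 = B := by rw [hB]; unfold cr; ring
  have e312 : cr x y 3 1 2 = D := by rw [hD]; unfold cr; ring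
  have e320 : cr x y 3 2 0 = -C := by rw [hC]; unfold cr; ring
  rw [← hA, ← hC, e031] at M0
  rw [e102, ← hD, e130] at M1
  rw [e201, e213, e230] at M2
  rw [e301, e312, e320] at M3
  clear hA hB hC hD e031 e102 e130 e201 e213 e230 e301 e312 e320
  rcases he 0 with h0 | h0 <;> rcases he 1 with h1 | h1 <;> rcases he 2 with h2 | h2 <;>
    rcases he 3 with h3 | h3 <;> rw [h0] at M0 <;> rw [h1] at M1 <;> rw [h2] at M2 <;> rw [h3] at M3 <;>
    rw [h0, h1, h2, h3] <;>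
    first
    | norm_num; done
    | (exfalso
       rcases M0 with ⟨a1, a2⟩ | ⟨a1, a2⟩ | ⟨a1, a2⟩ <;> rcases M1 with ⟨b1, b2⟩ | ⟨b1, b2⟩ | ⟨b1, b2⟩ <;>
       rcases M2 with ⟨c1, c2⟩ | ⟨c1, c2⟩ | ⟨c1, c2⟩ <;> rcases M3 with ⟨d1, d2⟩ | ⟨d1, d2⟩ | ⟨d1, d2⟩ <;>
       linarith)

/-- sign of a cyclic order -/
def sgn (l : List ℕ) : ℝ := if inc l = true then 1 else -1

theorem sgn_or (l : List ℕ) : sgn l = 1 ∨ sgn l = -1 := by
  unfold sgn
  split_ifs
  · exact Or.inl rfl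
  · exact Or.inr rfl

theorem Maj_rev {a b c : ℝ} : Maj a b c ↔ Maj c b a := by
  unfold Maj
  constructor
  · rintro (⟨h1, h2⟩ | ⟨h1, h2⟩ | ⟨h1, h2⟩)
    · exact Or.inr (Or.inl ⟨h2, h1⟩)
    · exact Or.inl ⟨h2, h1⟩
    · exact Or.inr (Or.inr ⟨h2, h1⟩)
  · rintro (⟨h1, h2⟩ | ⟨h1, h2⟩ | ⟨h1, h2⟩)
    · exact Or.inr (Or.inl ⟨h2, h1⟩)
    · exact Or.inl ⟨h2, h1⟩
    · exact Or.inr (Or.inr ⟨h2, h1⟩)

theorem maj_perm {F : ℕ → ℕ → ℝ} (hF : ∀ a b, F a b = - F b a) {p q r t0 t1 t2 : ℕ}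
    (hp : [p, q, r].Perm [t0, t1, t2]) (h01 : t0 < t1) (h12 : t1 < t2) :
    Maj (F p q) (F q r) (F r p) ↔ Maj (sgn [p, q, r] * F t0 t1) (sgn [p, q, r] * F t1 t2)
      (sgn [p, q, r] * F t2 t0) := by
  have hnd : [p, q, r].Nodup := hp.nodup_iff.2 (by
    simp only [List.nodup_cons, List.mem_cons, List.not_mem_nil, or_false, not_or,
      not_false_eq_true, List.nodup_nil, and_true]
    exact ⟨⟨by omega, by omega⟩, by omega⟩)
  have mp : p ∈ [t0, t1, t2] := hp.subset (by simp)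
  have mq : q ∈ [t0, t1, t2] := hp.subset (by simp)
  have mr : r ∈ [t0, t1, t2] := hp.subset (by simp)
  simp only [List.nodup_cons, List.mem_cons, List.not_mem_nil, or_false, not_or,
      not_false_eq_true, List.nodup_nil, and_true] at hnd
  obtain ⟨⟨npq, npr⟩, nqr⟩ := hnd
  simp only [List.mem_cons, List.not_mem_nil, or_false] at mp mq mr
  have g01 : ¬ t1 < t0 := by omega
  have g12 : ¬ t2 < t1 := by omega
  have g02 : ¬ t2 < t0 := by omega
  have h02 : t0 < t2 := by omega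
  have s1 : ∀ {a b c : ℕ}, inc [a, b, c] = true → sgn [a, b, c] = 1 := fun h => if_pos h
  have s2 : ∀ {a b c : ℕ}, ¬ inc [a, b, c] = true → sgn [a, b, c] = -1 := fun h => if_neg h
  have r1 : ∀ {a b c a' b' c' : ℝ}, (Maj a b c ↔ Maj a' b' c') → (Maj a b c ↔
      Maj (1 * a') (1 * b') (1 * c')) := by
    intro a b c a' b' c' h
    rw [one_mul, one_mul, one_mul]; exact h
  have r2 : ∀ {a b c : ℝ} {a' b' c' d' e' f' : ℕ}, (Maj a b c ↔ Maj (F b' a') (F d' c') (F f' e')) →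
      (Maj a b c ↔ Maj (-1 * F a' b') (-1 * F c' d') (-1 * F e' f')) := by
    intro a b c a' b' c' d' e' f' h
    rw [neg_one_mul, neg_one_mul, neg_one_mul, ← hF, ← hF, ← hF]; exact h
  rcases mp with e | e | e <;> rcases mq with e' | e' | e' <;> rcases mr with e'' | e'' | e'' <;>
    first
    | exact absurd (e.trans e'.symm) npq
    | exact absurd (e.trans e''.symm) npr
    | exact absurd (e'.trans e''.symm) nqr
    | skip
  · rw [e, e', e'', s1 (by simp [inc, h01, h12, h02, g01, g12, g02])]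
    exact r1 Iff.rfl
  · rw [e, e', e'', s2 (by simp [inc, h01, h12, h02, g01, g12, g02])]
    exact r2 Maj_rev
  · rw [e, e', e'', s2 (by simp [inc, h01, h12, h02, g01, g12, g02])]
    exact r2 (Maj_rev.trans (Maj_rot.trans Maj_rot))
  · rw [e, e', e'', s1 (by simp [inc, h01, h12, h02, g01, g12, g02])]
    exact r1 (Maj_rot.trans Maj_rot)
  · rw [e, e', e'', s1 (by simp [inc, h01, h12, h02, g01, g12, g02])]
    exact r1 Maj_rot
  · rw [e, e', e'', s2 (by simp [inc, h01, h12, h02, g01, g12, g02])]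
    exact r2 (Maj_rev.trans Maj_rot)

/-- the component `K₄` of `i`, sorted -/
structure Comp4 (N : List (List ℕ)) (i w0 w1 w2 w3 : ℕ) : Prop where
  l3 : w3 < N.length
  h01 : w0 < w1
  h12 : w1 < w2
  h23 : w2 < w3
  perm : (i :: nbs N i).Perm [w0, w1, w2, w3]
  n0 : (nbs N w0).Perm [w1, w2, w3]
  n1 : (nbs N w1).Perm [w0, w2, w3]
  n2 : (nbs N w2).Perm [w0, w1, w3]
  n3 : (nbs N w3).Perm [w0, w1, w2]

theorem sort4 {L : List ℕ} (hn : L.Nodup) (hl : L.length = 4) :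
    ∃ w0 w1 w2 w3, w0 < w1 ∧ w1 < w2 ∧ w2 < w3 ∧ L.Perm [w0, w1, w2, w3] := by
  have hp : (L.mergeSort (fun a b => decide (a ≤ b))).Perm L := List.mergeSort_perm _ _
  have hs : (L.mergeSort (fun a b => decide (a ≤ b))).Pairwise (fun a b => decide (a ≤ b) = true) :=
    List.pairwise_mergeSort (fun a b c h1 h2 => by simp only [decide_eq_true_eq] at *; omega)
      (fun a b => by simp only [Bool.or_eq_true, decide_eq_true_eq]; omega) L
  obtain ⟨M, hM⟩ : ∃ M, M = L.mergeSort (fun a b => decide (a ≤ b)) := ⟨_, rfl⟩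
  rw [← hM] at hp hs
  have hMl : M.length = 4 := hp.length_eq.trans hl
  have hMn : M.Nodup := hp.nodup_iff.2 hn
  match M, hMl, hMn, hs, hp with
  | [w0, w1, w2, w3], _, hMn, hs, hp =>
    simp only [List.pairwise_cons, List.mem_cons, List.not_mem_nil, or_false, forall_eq_or_imp,
      forall_eq, decide_eq_true_eq] at hs
    simp only [List.nodup_cons, List.mem_cons, List.not_mem_nil, or_false, not_or] at hMn
    obtain ⟨⟨a1, a2, a3⟩, ⟨b1, b2⟩, c1, -⟩ := hs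
    obtain ⟨⟨d1, d2, d3⟩, ⟨f1, f2⟩, g1, -⟩ := hMn
    exact ⟨w0, w1, w2, w3, by omega, by omega, by omega, hp.symm⟩

theorem comp4 {N : List (List ℕ)} (hR : IsRotationSystem N) (hC : Cubic N) {i : ℕ}
    (hi : i < N.length) (hK : ∀ j ∈ nbs N i, ∀ k ∈ nbs N j, k = i ∨ k ∈ nbs N i) :
    ∃ w0 w1 w2 w3, Comp4 N i w0 w1 w2 w3 := by
  have hn : (i :: nbs N i).Nodup := List.nodup_cons.2 ⟨hR.irr i hi, hR.nodup i hi⟩
  have hl : (i :: nbs N i).length = 4 := by rw [List.length_cons, hC i hi]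
  obtain ⟨w0, w1, w2, w3, h01, h12, h23, hp⟩ := sort4 hn hl
  have hlt : ∀ u ∈ [w0, w1, w2, w3], u < N.length := by
    intro u hu
    have := hp.symm.subset hu
    rcases List.mem_cons.1 this with rfl | h
    · exact hi
    · exact hR.lt i hi u h
  have hcl : ∀ u ∈ [w0, w1, w2, w3], (u :: nbs N u).Perm [w0, w1, w2, w3] := by
    intro u hu
    have hul := hlt u hu
    have hsub : (u :: nbs N u) ⊆ (i :: nbs N i) := by
      have hu' := hp.symm.subset hu
      intro k hk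
      rcases List.mem_cons.1 hk with rfl | hk
      · exact hu'
      · rcases List.mem_cons.1 hu' with rfl | h
        · exact List.mem_cons_of_mem _ hk
        · exact List.mem_cons.2 (hK u h k hk)
    have hun : (u :: nbs N u).Nodup := List.nodup_cons.2 ⟨hR.irr u hul, hR.nodup u hul⟩
    refine ((List.subperm_of_subset hun hsub).perm_of_length_le ?_).trans hp
    rw [List.length_cons, List.length_cons, hC i hi, hC u hul]
  refine ⟨w0, w1, w2, w3, hlt w3 (by simp), h01, h12, h23, hp, ?_, ?_, ?_, ?_⟩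
  · exact (hcl w0 (by simp)).cons_inv
  · exact ((hcl w1 (by simp)).trans (List.Perm.swap _ _ _)).cons_inv
  · have h1 : [w0, w1, w2, w3].Perm (w2 :: [w0, w1, w3]) :=
      (List.Perm.cons w0 (List.Perm.swap _ _ _)).trans (List.Perm.swap _ _ _)
    exact ((hcl w2 (by simp)).trans h1).cons_inv
  · have h1 : [w0, w1, w2, w3].Perm (w3 :: [w0, w1, w2]) :=
      ((List.Perm.cons w0 ((List.Perm.cons w1 (List.Perm.swap _ _ _)).trans
        (List.Perm.swap _ _ _))).trans (List.Perm.swap _ _ _))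
    exact ((hcl w3 (by simp)).trans h1).cons_inv

/-- the sign of the vertex `u` -/
def sv (N : List (List ℕ)) (u : ℕ) : ℝ := sgn (nbs N u)

theorem even_iff {N : List (List ℕ)} {i w0 w1 w2 w3 : ℕ} (h : Comp4 N i w0 w1 w2 w3) :
    ((i :: nbs N i).filter (fun v => inc (nbs N v))).length % 2 = 0 ↔
      sv N w0 * sv N w1 * sv N w2 * sv N w3 = 1 := by
  rw [(h.perm.filter _).length_eq]
  unfold sv sgn
  by_cases h0 : inc (nbs N w0) = true <;> by_cases h1 : inc (nbs N w1) = true <;>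
    by_cases h2 : inc (nbs N w2) = true <;> by_cases h3 : inc (nbs N w3) = true <;>
    (simp [List.filter, h0, h1, h2, h3] <;> norm_num)

theorem maj_perm' {X Y : ℕ → ℝ} {u t0 t1 t2 : ℕ} {l : List ℕ} {p q r : ℕ} (hl : l = [p, q, r])
    (hp : l.Perm [t0, t1, t2]) (h01 : t0 < t1) (h12 : t1 < t2) :
    Maj (cr X Y u p q) (cr X Y u q r) (cr X Y u r p) ↔ Maj (sgn l * cr X Y u t0 t1)
      (sgn l * cr X Y u t1 t2) (sgn l * cr X Y u t2 t0) := by
  subst hl
  exact maj_perm (F := fun a b => cr X Y u a b) (fun a b => cr_swap X Y u a b) hp h01 h12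

theorem kod : S_KOD := by
  intro N hR hC x y hrot i hi hK
  obtain ⟨w0, w1, w2, w3, hw⟩ := comp4 hR hC hi hK
  rw [even_iff hw]
  obtain ⟨X, hX⟩ : ∃ X : ℕ → ℝ, ∀ k : Fin N.length, x k = X k :=
    ⟨fun k => if h : k < N.length then x ⟨k, h⟩ else 0, fun k => by simp⟩
  obtain ⟨Y, hY⟩ : ∃ Y : ℕ → ℝ, ∀ k : Fin N.length, y k = Y k :=
    ⟨fun k => if h : k < N.length then y ⟨k, h⟩ else 0, fun k => by simp⟩
  have key : ∀ u t0 t1 t2, u < N.length → (nbs N u).Perm [t0, t1, t2] → t0 < t1 → t1 < t2 →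
      Maj (sv N u * cr X Y u t0 t1) (sv N u * cr X Y u t1 t2) (sv N u * cr X Y u t2 t0) := by
    intro u t0 t1 t2 hu hp h01 h12
    obtain ⟨b0, b1, b2, hb⟩ := nbs3 hC hu
    exact (maj_perm' hb hp h01 h12).1
      ((rot_iff (hR := hR) (hC := hC) hX hY (u := ⟨u, hu⟩) hb).1 (hrot ⟨u, hu⟩))
  have l3 := hw.l3
  have l2 := hw.h23.trans l3
  have l1 := hw.h12.trans l2
  have l0 := hw.h01.trans l1
  exact kfn0 (fun s => X (![w0, w1, w2, w3] s)) (fun s => Y (![w0, w1, w2, w3] s))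
    ![sv N w0, sv N w1, sv N w2, sv N w3]
    (by
      intro s
      fin_cases s
      · exact sgn_or _
      · exact sgn_or _
      · exact sgn_or _
      · exact sgn_or _)
    (key w0 w1 w2 w3 l0 hw.n0 hw.h12 hw.h23)
    (key w1 w0 w2 w3 l1 hw.n1 (hw.h01.trans hw.h12) hw.h23)
    (key w2 w0 w1 w3 l2 hw.n2 hw.h01 (hw.h12.trans hw.h23))
    (key w3 w0 w1 w2 l3 hw.n3 hw.h01 hw.h12)

theorem mem_nbs_iff {N : List (List ℕ)} {hR : IsRotationSystem N} {hC : Cubic N}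
    {v : Fin N.length} {j : ℕ} : j ∈ nbs N v ↔ ∃ i, ((cub N hR hC).nb v i).val = j := by
  constructor
  · intro h
    obtain ⟨m, hm, hmj⟩ := List.getElem_of_mem h
    exact ⟨⟨m, by rw [← hC v v.2]; exact hm⟩, hmj⟩
  · rintro ⟨i, rfl⟩
    exact List.getElem_mem _

theorem kev (h : S_KFS) : S_KEV := by
  intro N hR hC hE v hK4
  have hK : ∀ j ∈ nbs N v, ∀ k ∈ nbs N j, k = v.val ∨ k ∈ nbs N v := by
    intro j hj k hk
    obtain ⟨i, rfl⟩ := (mem_nbs_iff (hR := hR) (hC := hC)).1 hj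
    obtain ⟨m, rfl⟩ := (mem_nbs_iff (hR := hR) (hC := hC)).1 hk
    rcases hK4 i m with h1 | ⟨l, h1⟩
    · exact Or.inl (congrArg Fin.val h1)
    · exact Or.inr ((mem_nbs_iff (hR := hR) (hC := hC)).2 ⟨l, (congrArg Fin.val h1).symm⟩)
  have hev := hE v v.2 hK
  obtain ⟨w0, w1, w2, w3, hw⟩ := comp4 hR hC v.2 hK
  rw [even_iff hw] at hev
  obtain ⟨x₀, y₀, hB, M0, M1, M2, M3⟩ := h ![sv N w0, sv N w1, sv N w2, sv N w3]
    (by
      intro s
      fin_cases s
      · exact sgn_or _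
      · exact sgn_or _
      · exact sgn_or _
      · exact sgn_or _) hev
  have h01 := hw.h01
  have h12 := hw.h12
  have h23 := hw.h23
  obtain ⟨X, hX⟩ : ∃ X : (Fin 4 → ℝ) → ℕ → ℝ, ∀ z, X z w0 = z 0 ∧ X z w1 = z 1 ∧ X z w2 = z 2 ∧
      X z w3 = z 3 := by
    refine ⟨fun z k => if k = w0 then z 0 else if k = w1 then z 1 else if k = w2 then z 2 else z 3,
      fun z => ⟨?_, ?_, ?_, ?_⟩⟩
    · simp
    · simp [show w1 ≠ w0 by omega]
    · simp [show w2 ≠ w0 by omega, show w2 ≠ w1 by omega]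
    · simp [show w3 ≠ w0 by omega, show w3 ≠ w1 by omega, show w3 ≠ w2 by omega]
  have hXw : ∀ z s, X z (![w0, w1, w2, w3] s) = z s := by
    intro z s
    obtain ⟨h0, h1, h2, h3⟩ := hX z
    fin_cases s
    · exact h0
    · exact h1
    · exact h2
    · exact h3
  have hcr : ∀ a b c, cr (X x₀) (X y₀) (![w0, w1, w2, w3] a) (![w0, w1, w2, w3] b)
      (![w0, w1, w2, w3] c) = cr x₀ y₀ a b c := by
    intro a b c
    unfold cr
    rw [hXw, hXw, hXw, hXw, hXw, hXw]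
  have hmem : ∀ a ∈ ({u | u = v ∨ ∃ k, (cub N hR hC).nb v k = u} : Set (Fin N.length)),
      ∃ s : Fin 4, a.val = ![w0, w1, w2, w3] s := by
    intro a ha
    have h1 : a.val ∈ v.val :: nbs N v := by
      rcases ha with rfl | ⟨k, rfl⟩
      · exact List.mem_cons_self
      · exact List.mem_cons_of_mem _ ((mem_nbs_iff (hR := hR) (hC := hC)).2 ⟨k, rfl⟩)
    have h2 := hw.perm.subset h1
    simp only [List.mem_cons, List.not_mem_nil, or_false] at h2
    rcases h2 with h2 | h2 | h2 | h2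
    · exact ⟨0, h2⟩
    · exact ⟨1, h2⟩
    · exact ⟨2, h2⟩
    · exact ⟨3, h2⟩
  refine ⟨fun k => X x₀ k, fun k => X y₀ k, ?_, ?_, ?_⟩
  · intro a ha b hb hab
    obtain ⟨s, hs⟩ := hmem a ha
    obtain ⟨t, ht⟩ := hmem b hb
    change X x₀ a ≠ X x₀ b
    rw [hs, ht, hXw, hXw]
    refine hB.1 s (Finset.mem_univ _) t (Finset.mem_univ _) ?_
    rintro rfl
    exact hab (Fin.ext (hs.trans ht.symm))
  · intro a ha b hb c hc hab hbc hac
    obtain ⟨s, hs⟩ := hmem a ha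
    obtain ⟨t, ht⟩ := hmem b hb
    obtain ⟨r, hr⟩ := hmem c hc
    have e : cr (fun k : Fin N.length => X x₀ k) (fun k => X y₀ k) a b c = cr x₀ y₀ s t r := by
      rw [← hcr]
      unfold cr
      rw [← hs, ← ht, ← hr]
    rw [e]
    refine hB.2 s (Finset.mem_univ _) t (Finset.mem_univ _) r (Finset.mem_univ _) ?_ ?_ ?_
    · rintro rfl
      exact hab (Fin.ext (hs.trans ht.symm))
    · rintro rfl
      exact hbc (Fin.ext (ht.trans hr.symm))
    · rintro rfl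
      exact hac (Fin.ext (hs.trans hr.symm))
  · intro u hu
    have key : ∀ t0 t1 t2, (nbs N u).Perm [t0, t1, t2] → t0 < t1 → t1 < t2 →
        Maj (sv N u * cr (X x₀) (X y₀) u t0 t1) (sv N u * cr (X x₀) (X y₀) u t1 t2)
          (sv N u * cr (X x₀) (X y₀) u t2 t0) →
        Rot (cub N hR hC) (fun k => X x₀ k) (fun k => X y₀ k) u := by
      intro t0 t1 t2 hp h01 h12 hM
      obtain ⟨b0, b1, b2, hb⟩ := nbs3 hC u.2
      exact (rot_iff (hR := hR) (hC := hC) (fun _ => rfl) (fun _ => rfl) hb).2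
        ((maj_perm' hb hp h01 h12).2 hM)
    obtain ⟨s, hs⟩ := hmem u hu
    have c0 := hcr 0
    fin_cases s
    · have hs' : u.val = w0 := hs
      refine key w1 w2 w3 (by rw [hs']; exact hw.n0) h12 h23 ?_
      rw [hs']
      have e1 := hcr 0 1 2
      have e2 := hcr 0 2 3
      have e3 := hcr 0 3 1
      change cr (X x₀) (X y₀) w0 w1 w2 = _ at e1
      change cr (X x₀) (X y₀) w0 w2 w3 = _ at e2
      change cr (X x₀) (X y₀) w0 w3 w1 = _ at e3
      rw [e1, e2, e3]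
      exact M0
    · have hs' : u.val = w1 := hs
      refine key w0 w2 w3 (by rw [hs']; exact hw.n1) (h01.trans h12) h23 ?_
      rw [hs']
      have e1 := hcr 1 0 2
      have e2 := hcr 1 2 3
      have e3 := hcr 1 3 0
      change cr (X x₀) (X y₀) w1 w0 w2 = _ at e1
      change cr (X x₀) (X y₀) w1 w2 w3 = _ at e2
      change cr (X x₀) (X y₀) w1 w3 w0 = _ at e3
      rw [e1, e2, e3]
      exact M1
    · have hs' : u.val = w2 := hs
      refine key w0 w1 w3 (by rw [hs']; exact hw.n2) h01 (h12.trans h23) ?_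
      rw [hs']
      have e1 := hcr 2 0 1
      have e2 := hcr 2 1 3
      have e3 := hcr 2 3 0
      change cr (X x₀) (X y₀) w2 w0 w1 = _ at e1
      change cr (X x₀) (X y₀) w2 w1 w3 = _ at e2
      change cr (X x₀) (X y₀) w2 w3 w0 = _ at e3
      rw [e1, e2, e3]
      exact M2
    · have hs' : u.val = w3 := hs
      refine key w0 w1 w2 (by rw [hs']; exact hw.n3) h01 h12 ?_
      rw [hs']
      have e1 := hcr 3 0 1
      have e2 := hcr 3 1 2
      have e3 := hcr 3 2 0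
      change cr (X x₀) (X y₀) w3 w0 w1 = _ at e1
      change cr (X x₀) (X y₀) w3 w1 w2 = _ at e2
      change cr (X x₀) (X y₀) w3 w2 w0 = _ at e3
      rw [e1, e2, e3]
      exact M3

end Pool.Agent.Q47.RS
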