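import Pool.Agent.Q230.RS.St

/-!
# Project RS (helper230): RS-POL
-/

set_option autoImplicit false

namespace Pool.Agent.Q47.RS

open Pool.Agent.Q230.RS Pool.Agent.NPC

variable {α β γ : Type} [TEnc α] [TEnc β] [TEnc γ]

theorem p_nbs {N : α → List (List ℕ)} {i : α → ℕ} (hN : Poly N) (hi : Poly i) :
    Poly (fun a => nbs (N a) (i a)) := Poly.getD (d := fun _ => []) hN hi (NPC.Poly.const [])

theorem inc_eq (l : List ℕ) : inc l = (decide (l.length = 3) &&
    (((decide (l.getD 0 0 < l.getD 1 0) && decide (l.getD 1 0 < l.getD 2 0)) ||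
      (decide (l.getD 1 0 < l.getD 2 0) && decide (l.getD 2 0 < l.getD 0 0))) ||
      (decide (l.getD 2 0 < l.getD 0 0) && decide (l.getD 0 0 < l.getD 1 0)))) := by
  match l with
  | [] => rfl
  | [a] => rfl
  | [a, b] => rfl
  | [a, b, c] => simp [inc]
  | a :: b :: c :: d :: l => simp [inc]

theorem p_inc {l : α → List ℕ} (hl : Poly l) : Poly (fun a => inc (l a)) := by
  have h0 : Poly (fun a => (l a).getD 0 0) := Poly.getD (d := fun _ => 0) hl (NPC.Poly.const 0) (NPC.Poly.const 0)
  have h1 : Poly (fun a => (l a).getD 1 0) := Poly.getD (d := fun _ => 0) hl (NPC.Poly.const 1) (NPC.Poly.const 0)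
  have h2 : Poly (fun a => (l a).getD 2 0) := Poly.getD (d := fun _ => 0) hl (NPC.Poly.const 2) (NPC.Poly.const 0)
  refine (Poly.and (Poly.decide_eq (Poly.length hl) (NPC.Poly.const 3))
    (Poly.or (Poly.or (Poly.and (Poly.decide_lt h0 h1) (Poly.decide_lt h1 h2))
      (Poly.and (Poly.decide_lt h1 h2) (Poly.decide_lt h2 h0)))
      (Poly.and (Poly.decide_lt h2 h0) (Poly.decide_lt h0 h1)))).congr fun a => (inc_eq (l a)).symm

/-- the tests -/
def tLt (N : List (List ℕ)) (i : ℕ) : Bool := (nbs N i).all fun j => decide (j < N.length)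

/-- no loops -/
def tIrr (N : List (List ℕ)) (i : ℕ) : Bool := !decide (i ∈ nbs N i)

/-- no double entries -/
def tNod (N : List (List ℕ)) (i : ℕ) : Bool :=
  (nbs N i).all fun j => decide (((nbs N i).filter fun k => decide (k = j)).length ≤ 1)

/-- symmetric -/
def tSym (N : List (List ℕ)) (i : ℕ) : Bool := (nbs N i).all fun j => decide (i ∈ nbs N j)

/-- degree three -/
def tCub (N : List (List ℕ)) (i : ℕ) : Bool := decide ((nbs N i).length = 3)

/-- the complete components -/
def tEv (N : List (List ℕ)) (i : ℕ) : Bool :=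
  !((nbs N i).all fun j => (nbs N j).all fun k => decide (k = i) || decide (k ∈ nbs N i)) ||
    decide (((i :: nbs N i).filter fun v => inc (nbs N v)).length % 2 = 0)

/-- the test -/
def dRS (N : List (List ℕ)) : Bool := (List.range N.length).all fun i =>
  ((((tLt N i && tIrr N i) && tNod N i) && tSym N i) && tCub N i) && tEv N i

theorem p_tLt {N : α → List (List ℕ)} {i : α → ℕ} (hN : Poly N) (hi : Poly i) :
    Poly (fun a => tLt (N a) (i a)) := by
  unfold tLt
  refine Poly.all (p := fun a j => decide (j < (N a).length)) (p_nbs hN hi) ?_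
  exact Poly.decide_lt (Poly.snd Poly.id) (Poly.length (hN.comp (Poly.fst Poly.id)))

theorem p_tIrr {N : α → List (List ℕ)} {i : α → ℕ} (hN : Poly N) (hi : Poly i) :
    Poly (fun a => tIrr (N a) (i a)) := Poly.not (Poly.decide_mem hi (p_nbs hN hi))

theorem p_tNod {N : α → List (List ℕ)} {i : α → ℕ} (hN : Poly N) (hi : Poly i) :
    Poly (fun a => tNod (N a) (i a)) := by
  unfold tNod
  refine Poly.all (p := fun a j => decide (((nbs (N a) (i a)).filter fun k => decide (k = j)).length ≤ 1))
    (p_nbs hN hi) ?_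
  refine Poly.decide_le (Poly.length ?_) (NPC.Poly.const 1)
  refine Poly.filter (p := fun (q : α × ℕ) k => decide (k = q.2))
    (p_nbs (hN.comp (Poly.fst Poly.id)) (hi.comp (Poly.fst Poly.id))) ?_
  exact Poly.decide_eq (Poly.snd Poly.id) (Poly.snd (Poly.fst Poly.id))

theorem p_tSym {N : α → List (List ℕ)} {i : α → ℕ} (hN : Poly N) (hi : Poly i) :
    Poly (fun a => tSym (N a) (i a)) := by
  unfold tSym
  refine Poly.all (p := fun a j => decide (i a ∈ nbs (N a) j)) (p_nbs hN hi) ?_
  exact Poly.decide_mem (hi.comp (Poly.fst Poly.id)) (p_nbs (hN.comp (Poly.fst Poly.id)) (Poly.snd Poly.id))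

theorem p_tCub {N : α → List (List ℕ)} {i : α → ℕ} (hN : Poly N) (hi : Poly i) :
    Poly (fun a => tCub (N a) (i a)) := Poly.decide_eq (Poly.length (p_nbs hN hi)) (NPC.Poly.const 3)

theorem p_tEv {N : α → List (List ℕ)} {i : α → ℕ} (hN : Poly N) (hi : Poly i) :
    Poly (fun a => tEv (N a) (i a)) := by
  unfold tEv
  refine Poly.or (Poly.not ?_) ?_
  · refine Poly.all (p := fun a j => (nbs (N a) j).all fun k => decide (k = i a) || decide (k ∈ nbs (N a) (i a)))
      (p_nbs hN hi) ?_
    have hN1 : Poly (fun q : α × ℕ => N q.1) := hN.comp (Poly.fst Poly.id)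
    have hi1 : Poly (fun q : α × ℕ => i q.1) := hi.comp (Poly.fst Poly.id)
    refine Poly.all (p := fun (q : α × ℕ) k => decide (k = i q.1) || decide (k ∈ nbs (N q.1) (i q.1)))
      (p_nbs hN1 (Poly.snd Poly.id)) ?_
    have hN2 : Poly (fun q : (α × ℕ) × ℕ => N q.1.1) := hN1.comp (Poly.fst Poly.id)
    have hi2 : Poly (fun q : (α × ℕ) × ℕ => i q.1.1) := hi1.comp (Poly.fst Poly.id)
    exact Poly.or (Poly.decide_eq (Poly.snd Poly.id) hi2) (Poly.decide_mem (Poly.snd Poly.id) (p_nbs hN2 hi2))
  · refine Poly.decide_eq (Poly.mod (Poly.length ?_) (NPC.Poly.const 2)) (NPC.Poly.const 0)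
    refine Poly.filter (p := fun a v => inc (nbs (N a) v)) (Poly.cons hi (p_nbs hN hi)) ?_
    exact p_inc (p_nbs (hN.comp (Poly.fst Poly.id)) (Poly.snd Poly.id))

theorem p_dRS : Poly dRS := by
  unfold dRS
  refine Poly.all (p := fun N i => ((((tLt N i && tIrr N i) && tNod N i) && tSym N i) && tCub N i) && tEv N i)
    (Poly.range_length Poly.id) ?_
  have hN : Poly (fun q : List (List ℕ) × ℕ => q.1) := Poly.fst Poly.id
  have hi : Poly (fun q : List (List ℕ) × ℕ => q.2) := Poly.snd Poly.id
  exact Poly.and (Poly.and (Poly.and (Poly.and (Poly.and (p_tLt hN hi) (p_tIrr hN hi)) (p_tNod hN hi))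
    (p_tSym hN hi)) (p_tCub hN hi)) (p_tEv hN hi)

theorem tNod_iff (N : List (List ℕ)) (i : ℕ) : tNod N i = true ↔ (nbs N i).Nodup := by
  unfold tNod
  rw [List.all_eq_true, List.nodup_iff_count_le_one]
  have e : ∀ j, ((nbs N i).filter fun k => decide (k = j)).length = (nbs N i).count j := by
    intro j
    rw [List.count, List.countP_eq_length_filter]
    congr 1
  constructor
  · intro h j
    by_cases hj : j ∈ nbs N i
    · have h1 := of_decide_eq_true (h j hj)
      rwa [e] at h1
    · rw [List.count_eq_zero_of_not_mem hj]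
      exact Nat.zero_le _
  · intro h j _
    rw [decide_eq_true_iff, e]
    exact h j

theorem pol : S_POL := by
  refine ⟨dRS, p_dRS, fun N => ?_⟩
  unfold dRS
  rw [List.all_eq_true]
  constructor
  · intro h
    have h' : ∀ i < N.length, (((((tLt N i = true ∧ tIrr N i = true) ∧ tNod N i = true) ∧ tSym N i = true) ∧
        tCub N i = true) ∧ tEv N i = true) := by
      intro i hi
      have h1 := h i (List.mem_range.2 hi)
      simpa only [Bool.and_eq_true] using h1
    refine ⟨⟨?_, ?_, ?_, ?_⟩, ?_, ?_⟩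
    · intro i hi j hj
      have h1 := (h' i hi).1.1.1.1.1
      unfold tLt at h1
      rw [List.all_eq_true] at h1
      exact of_decide_eq_true (h1 j hj)
    · intro i hi
      have h1 := (h' i hi).1.1.1.1.2
      unfold tIrr at h1
      simpa using h1
    · intro i hi
      exact (tNod_iff N i).1 (h' i hi).1.1.1.2
    · intro i hi j hj
      have h1 := (h' i hi).1.1.2
      unfold tSym at h1
      rw [List.all_eq_true] at h1
      exact of_decide_eq_true (h1 j hj)
    · intro i hi
      exact of_decide_eq_true (h' i hi).1.2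
    · intro i hi hK
      have h1 := (h' i hi).2
      unfold tEv at h1
      rw [Bool.or_eq_true] at h1
      rcases h1 with h1 | h1
      · exfalso
        rw [Bool.not_eq_true', Bool.eq_false_iff] at h1
        apply h1
        rw [List.all_eq_true]
        intro j hj
        rw [List.all_eq_true]
        intro k hk
        rw [Bool.or_eq_true, decide_eq_true_iff, decide_eq_true_iff]
        exact hK j hj k hk
      · exact of_decide_eq_true h1
  · rintro ⟨⟨h1, h2, h3, h4⟩, h5, h6⟩ i hi
    rw [List.mem_range] at hi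
    simp only [Bool.and_eq_true]
    refine ⟨⟨⟨⟨⟨?_, ?_⟩, ?_⟩, ?_⟩, ?_⟩, ?_⟩
    · unfold tLt
      rw [List.all_eq_true]
      intro j hj
      exact decide_eq_true (h1 i hi j hj)
    · unfold tIrr
      simpa using h2 i hi
    · exact (tNod_iff N i).2 (h3 i hi)
    · unfold tSym
      rw [List.all_eq_true]
      intro j hj
      exact decide_eq_true (h4 i hi j hj)
    · exact decide_eq_true (h5 i hi)
    · unfold tEv
      rw [Bool.or_eq_true]
      by_cases hK : ∀ j ∈ nbs N i, ∀ k ∈ nbs N j, k = i ∨ k ∈ nbs N i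
      · exact Or.inr (decide_eq_true (h6 i hi hK))
      · left
        rw [Bool.not_eq_true', Bool.eq_false_iff]
        intro h7
        apply hK
        intro j hj k hk
        rw [List.all_eq_true] at h7
        have h8 := h7 j hj
        rw [List.all_eq_true] at h8
        have h9 := h8 k hk
        rwa [Bool.or_eq_true, decide_eq_true_iff, decide_eq_true_iff] at h9

end Pool.Agent.Q47.RS
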